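import Mathlib
import Pool.Agent.TH497.PW.IntFlow
import Pool.Agent.TH362.FP.Pos
import Pool.Agent.Y335.FL.Main
import Pool.Agent.R129.Ball.Main

set_option autoImplicit false

/-!
# Graphs of radius at most five (MP_c8786f_co)

Let `G` be a bridgeless multigraph, let `c_1, ..., c_k` be vertices, `r_1, ..., r_k` natural numbers
and `w_1, ..., w_k ≥ 0` real weights.  Suppose that for every vertex `x` of degree at least three
the weights of the balls `B(c_i, r_i)` which contain `x` add up to at least one.  Put
`S = ∑ w_i (2 ^ r_i - 1)`.  If `S ≤ 31` and `∑ w_i + 3 S < 126` then `G` has a nowhere-zero 5-flow,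
and the characteristic polynomial of its bond matroid is positive at all integers `q ≥ 5`.

In particular this holds for all bridgeless graphs of radius at most five (`radiusFive`), hence for
those of diameter at most five, if all vertices are at distance at most four from one of two
vertices, for all graphs with domination number at most 31 (`dominating`), and, more generally, for
all graphs whose vertices of degree at least three are covered by balls with
`∑ (2 ^ r_i - 1) ≤ 31` and `k + 3 ∑ (2 ^ r_i - 1) ≤ 125` (`covered`), and if for some `r ≤ 5` every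
ball of radius `r` contains at least `(2 ^ r - 1) / 31` of all vertices (`bigBalls`).  The order,
the degrees and the connectivity are arbitrary.  (Tutte's 12-cage has radius six, and it is covered
by a ball of radius five and 32 further vertices, for which `k + 3 S = 126`.)

Proof.  The class is closed under contractions (not under deletions).  Let `G` be a counterexample
with as few edges as possible.  Circuits with at most eleven edges can be contracted (library
`Y335/FL`), and so can one of two edges which form a cut; hence (library `Y358/IN`) `G` has girth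
at least twelve and all degrees are at least three (apart from isolated vertices).  Let `l_j` be the
number of the vertices at distance `j` from a vertex.  Then `l_{j+1} ≥ 2 l_j` for `1 ≤ j ≤ 4` and
`l_6 ≥ 32`.  If `n` is the number of the vertices it follows that a ball of radius `r ≤ 5` has at
most `1 + (2 ^ r - 1) (n - 33) / 31` vertices.  As `n ≥ 126` the weights of the balls are too small.
-/

namespace Pool.Agent.Results.MP_c8786f_co.CoveredByBalls

open Pool.Agent.TH497.PW

variable {V E : Type}

/-- The edges with exactly one end in `X`. -/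
def boundary [DecidableEq V] [Fintype E] (src dst : E → V) (X : Finset V) : Finset E :=
  Finset.univ.filter (fun e => ¬ (src e ∈ X ↔ dst e ∈ X))

/-- Kirchhoff's law. -/
def IsFlow [DecidableEq V] [Fintype E] (src dst : E → V) (f : E → ℤ) : Prop :=
  ∀ v : V, ∑ e ∈ Finset.univ.filter (fun e => src e = v), f e
    = ∑ e ∈ Finset.univ.filter (fun e => dst e = v), f e

/-- The degree of `v`; loops are not counted. -/
def properDegree [DecidableEq V] [Fintype E] (src dst : E → V) (v : V) : ℕ :=
  (Finset.univ.filter (fun e => src e ≠ dst e ∧ (src e = v ∨ dst e = v))).card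

/-- There is a walk with at most `m` edges from `a` to `b`: the vertices `p 0, p 1, ..., p n`. -/
def WithinDistance (src dst : E → V) (m : ℕ) (a b : V) : Prop :=
  ∃ (n : ℕ) (p : ℕ → V), n ≤ m ∧ p 0 = a ∧ p n = b ∧
    ∀ i < n, ∃ e, (src e = p i ∧ dst e = p (i + 1)) ∨ (src e = p (i + 1) ∧ dst e = p i)

/-- The number of the components of the graph with the vertices `V` and the edges `A`. -/
noncomputable def components (src dst : E → V) (A : Finset E) : ℕ :=
  Nat.card (SimpleGraph.fromRel
    (fun u v : V => ∃ e ∈ A, src e = u ∧ dst e = v)).ConnectedComponent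

/-- The rank of `A` in the cycle matroid of the graph. -/
noncomputable def cycleRank [Fintype V] (src dst : E → V) (A : Finset E) : ℕ :=
  Fintype.card V - components src dst A

/-- The rank of `A` in the bond matroid of the graph (the dual of the cycle matroid). -/
noncomputable def bondRank [Fintype V] [Fintype E] [DecidableEq E] (src dst : E → V)
    (A : Finset E) : ℕ :=
  A.card + cycleRank src dst Aᶜ - cycleRank src dst Finset.univ

/-- The characteristic polynomial of the bond matroid at the integer `x`. -/
noncomputable def bondCharPoly [Fintype V] [Fintype E] [DecidableEq E] (src dst : E → V)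
    (x : ℤ) : ℤ :=
  ∑ A : Finset E, (-1) ^ A.card * x ^ (bondRank src dst Finset.univ - bondRank src dst A)

theorem isFlow_iff [DecidableEq V] [Fintype E] (src dst : E → V) (f : E → ℤ) :
    IsFlow src dst f ↔
      ∀ v, ∑ e, f e * ((if src e = v then 1 else 0) - (if dst e = v then 1 else 0)) = 0 := by
  unfold IsFlow
  refine forall_congr' fun v => ?_
  rw [Finset.sum_filter, Finset.sum_filter, ← sub_eq_zero, ← Finset.sum_sub_distrib]
  have : ∀ e, (if src e = v then f e else 0) - (if dst e = v then f e else 0)
      = f e * ((if src e = v then 1 else 0) - (if dst e = v then 1 else 0)) := by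
    intro e
    by_cases h1 : src e = v <;> by_cases h2 : dst e = v <;> simp [h1, h2]
  rw [Finset.sum_congr rfl (fun e _ => this e)]

theorem nzf [Fintype V] [DecidableEq V] [Fintype E] [DecidableEq E] (src dst : E → V)
    (h : Pool.Agent.TH676.Z.FlowOn src dst ∅ ∅) : NZF src dst := by
  obtain ⟨f, h1, _, h3⟩ := h
  refine ⟨f, fun e => h3 e (Finset.notMem_empty _) (Finset.notMem_empty _), fun x => ?_⟩
  rw [← h1 x]
  unfold Pool.Agent.TH676.Z.bd
  refine Finset.sum_congr rfl fun e _ => ?_
  unfold ic
  by_cases h4 : src e = x <;> by_cases h5 : dst e = x <;> simp [h4, h5]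

theorem charPoly_pos [Fintype V] [DecidableEq V] [Fintype E] [DecidableEq E] (src dst : E → V)
    (f : E → ℤ) (h1 : IsFlow src dst f) (h2 : ∀ e, 1 ≤ |f e| ∧ |f e| ≤ 4) (q : ℕ) (hq : 5 ≤ q) :
    0 < bondCharPoly src dst q :=
  Pool.Agent.TH362.FP.chr_pos src dst f h2 h1 q hq

theorem near_of [Fintype V] [DecidableEq V] [Fintype E] [DecidableEq E] (src dst : E → V)
    (p : ℕ → V) : ∀ n : ℕ, (∀ i < n, ∃ e, (src e = p i ∧ dst e = p (i + 1)) ∨
      (src e = p (i + 1) ∧ dst e = p i)) → Pool.Agent.R129.Ball.Near src dst n (p 0) (p n)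
  | 0, _ => Pool.Agent.R129.Ball.Near.refl _ _
  | n + 1, h => by
    have ih := near_of src dst p n (fun i hi => h i (Nat.lt_succ_of_lt hi))
    by_cases hne : p n = p (n + 1)
    · rw [← hne]
      exact ih.succ
    · exact Pool.Agent.R129.Ball.Near.step ih ⟨hne, h n (Nat.lt_succ_self n)⟩

theorem near_mono [Fintype V] [DecidableEq V] [Fintype E] [DecidableEq E] {src dst : E → V}
    {n m : ℕ} {a b : V} (h : Pool.Agent.R129.Ball.Near src dst n a b) (hnm : n ≤ m) :
    Pool.Agent.R129.Ball.Near src dst m a b := by
  induction hnm with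
  | refl => exact h
  | step _ ih => exact ih.succ

open Classical in
theorem result :
    ∀ (V E ι : Type) [Fintype V] [DecidableEq V] [Fintype E] [DecidableEq E] [Fintype ι]
      (src dst : E → V) (c : ι → V) (r : ι → ℕ) (w : ι → ℝ),
      (∀ i, 0 ≤ w i) →
      ∑ i, w i * (2 ^ r i - 1) ≤ 31 →
      ∑ i, w i + 3 * ∑ i, w i * (2 ^ r i - 1) < 126 →
      (∀ x, 3 ≤ properDegree src dst x →
        1 ≤ ∑ i, if WithinDistance src dst (r i) (c i) x then w i else 0) →
      (∀ Y : Finset V, (boundary src dst Y).card ≠ 1) →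
      (∃ f : E → ℤ, IsFlow src dst f ∧ ∀ e, 1 ≤ |f e| ∧ |f e| ≤ 4) ∧
      ∀ q : ℕ, 5 ≤ q → 0 < bondCharPoly src dst q := by
  intro V E ι _ _ _ _ _ src dst c r w hw h31 h126 hcov hb
  have hcl : Pool.Agent.R129.Ball.ClB r w src dst := by
    refine ⟨c, fun x hx => (hcov x hx).trans (Finset.sum_le_sum fun i _ => ?_)⟩
    by_cases h : WithinDistance src dst (r i) (c i) x
    · obtain ⟨n, p, hn, h0, h1, h2⟩ := id h
      have h3 := near_of src dst p n h2
      rw [h0, h1] at h3
      rw [if_pos h, if_pos (near_mono h3 hn)]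
    · rw [if_neg h]
      split_ifs
      · exact hw i
      · exact le_rfl
  have hfl := Pool.Agent.R129.Ball.flow_of_ClB Pool.Agent.Y335.FL.contract_all r w hw h31 h126
    src dst hcl (fun Y _ => by rw [Finset.sdiff_empty]; exact hb Y)
  obtain ⟨F, hF, hF0⟩ := int_flow src dst (nzf src dst hfl)
  have hF1 := (isFlow_iff src dst F).mpr hF0
  exact ⟨⟨F, hF1, hF⟩, fun q hq => charPoly_pos src dst F hF1 hF q hq⟩

/-- Bridgeless graphs whose vertices of degree at least three are covered by few small balls. -/
theorem covered (V E ι : Type) [Fintype V] [DecidableEq V] [Fintype E] [DecidableEq E] [Fintype ι]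
    (src dst : E → V) (c : ι → V) (r : ι → ℕ)
    (h31 : ∑ i, (2 ^ r i - 1) ≤ 31) (h125 : Fintype.card ι + 3 * ∑ i, (2 ^ r i - 1) ≤ 125)
    (hc : ∀ x, 3 ≤ properDegree src dst x → ∃ i, WithinDistance src dst (r i) (c i) x)
    (hb : ∀ Y : Finset V, (boundary src dst Y).card ≠ 1) :
    ∃ f : E → ℤ, IsFlow src dst f ∧ ∀ e, 1 ≤ |f e| ∧ |f e| ≤ 4 := by
  classical
  have hS : ∑ i, (1 : ℝ) * (2 ^ r i - 1) = ((∑ i, (2 ^ r i - 1) : ℕ) : ℝ) := by
    rw [Nat.cast_sum]
    refine Finset.sum_congr rfl fun i _ => ?_
    rw [Nat.cast_sub Nat.one_le_two_pow]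
    norm_num
  refine (result V E ι src dst c r (fun _ => 1) (fun _ => zero_le_one) ?_ ?_ (fun x hx => ?_) hb).1
  · rw [hS]
    exact_mod_cast h31
  · rw [hS]
    simp only [Finset.sum_const, Finset.card_univ, nsmul_eq_mul, mul_one]
    have : Fintype.card ι + 3 * ∑ i, (2 ^ r i - 1) < 126 := by omega
    exact_mod_cast this
  · obtain ⟨i, hi⟩ := hc x hx
    refine le_trans ?_ (Finset.single_le_sum (f := fun i => if WithinDistance src dst (r i) (c i) x
      then (1 : ℝ) else 0) (fun j _ => ?_) (Finset.mem_univ i))
    · simp [hi]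
    · split_ifs
      · exact zero_le_one
      · exact le_rfl

/-- Bridgeless graphs of radius at most five. -/
theorem radiusFive (V E : Type) [Fintype V] [DecidableEq V] [Fintype E] [DecidableEq E]
    (src dst : E → V) (c : V) (hc : ∀ x, WithinDistance src dst 5 c x)
    (hb : ∀ Y : Finset V, (boundary src dst Y).card ≠ 1) :
    ∃ f : E → ℤ, IsFlow src dst f ∧ ∀ e, 1 ≤ |f e| ∧ |f e| ≤ 4 :=
  covered V E Unit src dst (fun _ => c) (fun _ => 5) (by simp) (by simp)
    (fun x _ => ⟨(), hc x⟩) hb

/-- Bridgeless graphs with a dominating set of at most 31 vertices. -/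
theorem dominating (V E : Type) [Fintype V] [DecidableEq V] [Fintype E] [DecidableEq E]
    (src dst : E → V) (D : Finset V) (hD : D.card ≤ 31)
    (hc : ∀ x, ∃ y ∈ D, WithinDistance src dst 1 y x)
    (hb : ∀ Y : Finset V, (boundary src dst Y).card ≠ 1) :
    ∃ f : E → ℤ, IsFlow src dst f ∧ ∀ e, 1 ≤ |f e| ∧ |f e| ≤ 4 :=
  covered V E D src dst (fun y => y) (fun _ => 1) (by simpa using hD)
    (by simp; omega) (fun x _ => by
      obtain ⟨y, hy, h⟩ := hc x
      exact ⟨⟨y, hy⟩, h⟩) hb

theorem within_symm {src dst : E → V} {m : ℕ} {a b : V} (h : WithinDistance src dst m a b) :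
    WithinDistance src dst m b a := by
  obtain ⟨n, p, hn, h0, h1, h2⟩ := h
  refine ⟨n, fun i => p (n - i), hn, by simpa using h1, by simpa using h0, fun i hi => ?_⟩
  obtain ⟨e, he⟩ := h2 (n - (i + 1)) (by omega)
  have h3 : n - (i + 1) + 1 = n - i := by omega
  rw [h3] at he
  exact ⟨e, he.symm⟩

open Classical in
/-- Bridgeless graphs in which every ball of radius `r` contains at least `(2 ^ r - 1) / 31` of all
vertices, for some `r` with `1 ≤ r ≤ 5`. -/
theorem bigBalls (V E : Type) [Fintype V] [DecidableEq V] [Fintype E] [DecidableEq E]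
    (src dst : E → V) (r : ℕ) (hr : 1 ≤ r)
    (hc : ∀ x, (2 ^ r - 1) * (Fintype.card V : ℝ) ≤
      31 * (Finset.univ.filter (fun y => WithinDistance src dst r x y)).card)
    (hb : ∀ Y : Finset V, (boundary src dst Y).card ≠ 1) :
    ∃ f : E → ℤ, IsFlow src dst f ∧ ∀ e, 1 ≤ |f e| ∧ |f e| ≤ 4 := by
  have hp : (2 : ℝ) ≤ 2 ^ r := by
    calc (2 : ℝ) = 2 ^ 1 := by norm_num
      _ ≤ 2 ^ r := pow_le_pow_right₀ (by norm_num) hr
  by_cases hV : Fintype.card V = 0
  · have : IsEmpty V := Fintype.card_eq_zero_iff.1 hV
    exact ⟨fun e => isEmptyElim (src e), fun v => isEmptyElim v, fun e => isEmptyElim (src e)⟩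
  have hn : (0 : ℝ) < Fintype.card V := by
    exact_mod_cast Nat.pos_of_ne_zero hV
  set n : ℝ := (Fintype.card V : ℝ) with hnd
  have hpos : 0 < (2 ^ r - 1) * n := mul_pos (by linarith) hn
  set w : ℝ := 31 / ((2 ^ r - 1) * n) with hwd
  have hw : 0 ≤ w := by positivity
  have hsum : ∑ _i : V, w * (2 ^ r - 1) = 31 := by
    have h1 : (2 : ℝ) ^ r - 1 ≠ 0 := by linarith
    rw [Finset.sum_const, Finset.card_univ, nsmul_eq_mul, hwd, ← hnd]
    field_simp
  have hsum2 : ∑ _i : V, w * (2 ^ r - 1) = (∑ _i : V, w) * (2 ^ r - 1) := by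
    rw [Finset.sum_mul]
  have hw2 : 0 ≤ ∑ _i : V, w := Finset.sum_nonneg fun _ _ => hw
  refine (result V E V src dst id (fun _ => r) (fun _ => w) (fun _ => hw) hsum.le ?_
    (fun x _ => ?_) hb).1
  · rw [hsum]
    nlinarith
  · rw [← Finset.sum_filter, Finset.sum_const, nsmul_eq_mul]
    have h1 := hc x
    have h2 : (Finset.univ.filter (fun y => WithinDistance src dst r x y)).card ≤
        (Finset.univ.filter (fun i => WithinDistance src dst r (id i) x)).card :=
      Finset.card_le_card fun y hy => Finset.mem_filter.2 ⟨Finset.mem_univ _,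
        within_symm (Finset.mem_filter.1 hy).2⟩
    have h3 : ((Finset.univ.filter (fun y => WithinDistance src dst r x y)).card : ℝ) ≤
        (Finset.univ.filter (fun i => WithinDistance src dst r (id i) x)).card := by
      exact_mod_cast h2
    rw [hwd, mul_div_assoc', le_div_iff₀ hpos, one_mul]
    linarith

end Pool.Agent.Results.MP_c8786f_co.CoveredByBalls
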