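import Mathlib
import Pool.Agent.TH497.PW.IntFlow
import Pool.Agent.TH362.FP.Pos
import Pool.Agent.Y335.FL.Main
import Pool.Agent.Y335.FL.Order
import Pool.Agent.Y335.FL.Local11
import Pool.Agent.H173FL.Split

set_option autoImplicit false

/-!
# Nowhere-zero 5-flows in graphs with at most 125 odd vertices after contraction of cycles (MP_c8786f_co)

Let `C_1, ..., C_m` be cycles (connected or not: supports of flows with values in `{0, 1, -1}`) of a
bridgeless multigraph `G`, each with at most eleven edges outside the union of the earlier ones, and
let `F` be their union.  If at most `125` components of the graph `(V, F)` have an odd number of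
boundary edges then `G` has a nowhere-zero 5-flow, and the characteristic polynomial of its bond
matroid is positive at all integers `q ≥ 5`.

In particular (`m = 0`, `oddVertices` below) this holds for all bridgeless multigraphs with at most
`125` vertices of odd degree, and for all bridgeless cubic graphs with a 2-factor in which all
circuits have at most eleven edges and at most `125` of them are odd.  The number and the degrees of
the vertices, the connectivity and the genus are arbitrary.

Proof.  (1) Splitting lemma.  Let `v` be a vertex of a bridgeless multigraph with at least four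
proper edges.  Splitting off a pair of edges at `v` (replace `av`, `vb` by an edge `ab`) creates a
bridge only if some vertex set `Y` without `v` contains `a` and `b` and has exactly three boundary
edges.  If all pairs at `v` were bad, take such a set `X` with as many vertices as possible which
contains the other ends of at least two edges at `v`; some edge `e` at `v` does not lead to `X`,
some edge `g` at `v` does, and a set `Y` which is bad for `e, g` gives a contradiction by counting
the edges between the four parts given by `X` and `Y`.

(2) Splitting off keeps all degrees except that of `v`, which changes by two; so the number of the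
vertices of odd degree does not change, and nowhere-zero flows lift back.  After all splittings
every vertex has at most three proper edges, so at most `125` vertices have three of them.

(3) Bridgeless multigraphs with at most `125` vertices of degree at least three have nowhere-zero
5-flows (starting library: circuits with at most eleven edges are reducible, and a graph of girth
at least twelve and minimum degree at least three has at least `126` vertices).

(4) This is applied to the quotient of `G` by the components of `F`; flows of the quotient are
lifted along the cycles `C_m, ..., C_1` (starting library).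
-/

namespace Pool.Agent.Results.MP_c8786f_co.OddVertices

open Pool.Agent.TH497.PW

variable {V E : Type}

/-- The edges with exactly one end in `X`. -/
def boundary [DecidableEq V] [Fintype E] (src dst : E → V) (X : Finset V) : Finset E :=
  Finset.univ.filter (fun e => ¬ (src e ∈ X ↔ dst e ∈ X))

/-- The degree of `v`; a loop counts twice. -/
def degree [DecidableEq V] [Fintype E] (src dst : E → V) (v : V) : ℕ :=
  (Finset.univ.filter (fun e => src e = v)).card + (Finset.univ.filter (fun e => dst e = v)).card

/-- Kirchhoff's law. -/
def IsFlow [DecidableEq V] [Fintype E] (src dst : E → V) (f : E → ℤ) : Prop :=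
  ∀ v : V, ∑ e ∈ Finset.univ.filter (fun e => src e = v), f e
    = ∑ e ∈ Finset.univ.filter (fun e => dst e = v), f e

/-- The number of the components of the graph with the vertices `V` and the edges `A`. -/
noncomputable def components (src dst : E → V) (A : Finset E) : ℕ :=
  Nat.card (SimpleGraph.fromRel
    (fun u v : V => ∃ e ∈ A, src e = u ∧ dst e = v)).ConnectedComponent

/-- The rank of `A` in the cycle matroid of the graph. -/
noncomputable def cycleRank [Fintype V] (src dst : E → V) (A : Finset E) : ℕ :=
  Fintype.card V - components src dst A

/-- The rank of `A` in the bond matroid of the graph (the dual of the cycle matroid). -/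
noncomputable def bondRank [Fintype V] [Fintype E] [DecidableEq E] (src dst : E → V)
    (A : Finset E) : ℕ :=
  A.card + cycleRank src dst Aᶜ - cycleRank src dst Finset.univ

/-- The characteristic polynomial of the bond matroid at the integer `x`. -/
noncomputable def bondCharPoly [Fintype V] [Fintype E] [DecidableEq E] (src dst : E → V)
    (x : ℤ) : ℤ :=
  ∑ A : Finset E, (-1) ^ A.card * x ^ (bondRank src dst Finset.univ - bondRank src dst A)

theorem isFlow_iff [DecidableEq V] [Fintype E] (src dst : E → V) (f : E → ℤ) :
    IsFlow src dst f ↔
      ∀ v, ∑ e, f e * ((if src e = v then 1 else 0) - (if dst e = v then 1 else 0)) = 0 := by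
  unfold IsFlow
  refine forall_congr' fun v => ?_
  rw [Finset.sum_filter, Finset.sum_filter, ← sub_eq_zero, ← Finset.sum_sub_distrib]
  have : ∀ e, (if src e = v then f e else 0) - (if dst e = v then f e else 0)
      = f e * ((if src e = v then 1 else 0) - (if dst e = v then 1 else 0)) := by
    intro e
    by_cases h1 : src e = v <;> by_cases h2 : dst e = v <;> simp [h1, h2]
  rw [Finset.sum_congr rfl (fun e _ => this e)]

theorem nzf [Fintype V] [DecidableEq V] [Fintype E] [DecidableEq E] (src dst : E → V)
    (h : Pool.Agent.TH676.Z.FlowOn src dst ∅ ∅) : NZF src dst := by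
  obtain ⟨f, h1, _, h3⟩ := h
  refine ⟨f, fun e => h3 e (Finset.notMem_empty _) (Finset.notMem_empty _), fun x => ?_⟩
  rw [← h1 x]
  unfold Pool.Agent.TH676.Z.bd
  refine Finset.sum_congr rfl fun e _ => ?_
  unfold ic
  by_cases h4 : src e = x <;> by_cases h5 : dst e = x <;> simp [h4, h5]

theorem charPoly_pos [Fintype V] [DecidableEq V] [Fintype E] [DecidableEq E] (src dst : E → V)
    (f : E → ℤ) (h1 : IsFlow src dst f) (h2 : ∀ e, 1 ≤ |f e| ∧ |f e| ≤ 4) (q : ℕ) (hq : 5 ≤ q) :
    0 < bondCharPoly src dst q :=
  Pool.Agent.TH362.FP.chr_pos src dst f h2 h1 q hq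

open Pool.Agent.TH676.Z Pool.Agent.Y335.FL in
/-- at most 125 vertices of odd degree -/
theorem flowOn [Fintype V] [DecidableEq V] [Fintype E] [DecidableEq E] {src dst : E → V}
    (h : (Finset.univ.filter (fun v => Odd (degree src dst v))).card ≤ 125)
    (hb : ∀ Y : Finset V, (crs src dst Y).card ≠ 1) : FlowOn src dst ∅ ∅ := by
  refine Pool.Agent.H173FL.odd_of_order (N := 125) (fun s d h1 h2 => ?_) _ src dst rfl ?_ hb
  · exact order girth_all moore V E s d h1 (fun Y _ => by rw [Finset.sdiff_empty]; exact h2 Y)
  · refine le_trans (le_of_eq ?_) h
    congr 1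
    ext x
    rw [Finset.mem_filter, Finset.mem_filter]
    have : Pool.Agent.H173FL.dg2 src dst x = degree src dst x := by
      unfold Pool.Agent.H173FL.dg2 degree
      rw [Finset.sum_add_distrib, Finset.card_filter, Finset.card_filter]
    rw [this]

/-- The graph with the vertices `V` and the edges `A`. -/
def graphOf (src dst : E → V) (A : Finset E) : SimpleGraph V :=
  SimpleGraph.fromRel (fun u v : V => ∃ e ∈ A, src e = u ∧ dst e = v)

open Classical in
/-- The vertices of a component. -/
noncomputable def part [Fintype V] (src dst : E → V) (A : Finset E)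
    (c : (graphOf src dst A).ConnectedComponent) : Finset V :=
  Finset.univ.filter (fun v => (graphOf src dst A).connectedComponentMk v = c)

/-- The number of the components of the graph with the edges `A` whose vertex sets have an odd
number of boundary edges (in the whole graph). -/
noncomputable def oddParts [Fintype V] [DecidableEq V] [Fintype E] (src dst : E → V)
    (A : Finset E) : ℕ :=
  Nat.card {c : (graphOf src dst A).ConnectedComponent //
    Odd (boundary src dst (part src dst A c)).card}

theorem mem_part [Fintype V] (src dst : E → V) (A : Finset E)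
    (c : (graphOf src dst A).ConnectedComponent) (v : V) :
    v ∈ part src dst A c ↔ (graphOf src dst A).connectedComponentMk v = c := by
  simp [part]

theorem part_edge [Fintype V] (src dst : E → V) (A : Finset E) {e : E} (he : e ∈ A) :
    (graphOf src dst A).connectedComponentMk (src e)
      = (graphOf src dst A).connectedComponentMk (dst e) := by
  by_cases h : src e = dst e
  · rw [h]
  · rw [SimpleGraph.ConnectedComponent.eq]
    refine SimpleGraph.Adj.reachable ?_
    unfold graphOf
    rw [SimpleGraph.fromRel_adj]
    exact ⟨h, Or.inl ⟨e, he, rfl, rfl⟩⟩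

/-- the parity of the degree is the parity of the boundary -/
theorem odd_dg2 {W : Type} [Fintype W] [DecidableEq W] [Fintype E] [DecidableEq E] (s d : E → W)
    (w : W) : Odd (Pool.Agent.H173FL.dg2 s d w) ↔ Odd (boundary s d {w}).card := by
  have h : Pool.Agent.H173FL.dg2 s d w = (boundary s d {w}).card
      + 2 * (Finset.univ.filter (fun e => s e = w ∧ d e = w)).card := by
    unfold Pool.Agent.H173FL.dg2 boundary
    rw [Finset.card_filter, Finset.card_filter, Finset.mul_sum, ← Finset.sum_add_distrib]
    refine Finset.sum_congr rfl fun e _ => ?_
    by_cases h1 : s e = w <;> by_cases h2 : d e = w <;> simp [h1, h2]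
  rw [h, Nat.odd_add]
  simp

open Pool.Agent.TH676.Z Pool.Agent.Y335.FL in
/-- the quotient by the components of `F` has a flow -/
theorem flowOn' [Fintype V] [DecidableEq V] [Fintype E] [DecidableEq E] {src dst : E → V}
    (m : ℕ) (C : Fin m → Finset E)
    (hC : ∀ i, ∃ z : E → ZMod 5, (∀ v, bd src dst z v = 0) ∧
      (∀ e, z e = 0 ∨ z e = 1 ∨ z e = -1) ∧ ∀ e, z e ≠ 0 ↔ e ∈ C i)
    (hnew : ∀ i, (C i \ (Finset.univ.filter (fun j => j < i)).biUnion C).card ≤ 11)
    (hb : ∀ Y : Finset V, Disjoint (boundary src dst Y) (Finset.univ.biUnion C) →
      (boundary src dst Y).card ≠ 1)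
    (ho : oddParts src dst (Finset.univ.biUnion C) ≤ 125) : FlowOn src dst ∅ ∅ := by
  classical
  refine lift_all V E src dst m C hC hnew ?_
  obtain ⟨F, hFd⟩ : ∃ F : Finset E, F = Finset.univ.biUnion C := ⟨_, rfl⟩
  rw [← hFd] at hb ho ⊢
  obtain ⟨W, iF, iD, r, hs, hF, hflow, hside⟩ := quot' V E src dst F
  have hpre : ∀ Y : Finset W, boundary (r ∘ src) (r ∘ dst) Y
      = boundary src dst (Finset.univ.filter (fun v => r v ∈ Y)) := by
    intro Y
    ext e
    simp [boundary]
  have hdis : ∀ Y : Finset W, Disjoint (boundary src dst (Finset.univ.filter (fun v => r v ∈ Y))) F := by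
    intro Y
    rw [Finset.disjoint_left]
    intro e he heF
    simp [boundary, hF e heF] at he
  rw [← Finset.union_empty F]
  refine hflow ∅ ?_
  refine Pool.Agent.H173FL.odd_of_order (N := 125) (fun s d h1 h2 => ?_) _ (r ∘ src) (r ∘ dst)
    rfl ?_ ?_
  · exact order girth_all moore W E s d h1 (fun Y _ => by rw [Finset.sdiff_empty]; exact h2 Y)
  · -- odd vertices of the quotient
    refine le_trans ?_ ho
    have hfin : Finite {c : (graphOf src dst F).ConnectedComponent //
        Odd (boundary src dst (part src dst F c)).card} := inferInstance
    rw [← Nat.card_eq_finsetCard]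
    -- the class of a component
    have hcls : ∀ v v' : V, r v = r v' ↔ (graphOf src dst F).connectedComponentMk v
        = (graphOf src dst F).connectedComponentMk v' := by
      intro v v'
      constructor
      · intro h
        have h1 := hside (part src dst F ((graphOf src dst F).connectedComponentMk v)) (by
          rw [Finset.disjoint_left]
          intro e he heF
          have h2 := part_edge src dst F heF
          unfold crs at he
          rw [Finset.mem_filter] at he
          exact he.2 (by rw [mem_part, mem_part, h2])) v v' h
        rw [mem_part, mem_part] at h1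
        exact (h1.mp rfl).symm
      · intro h
        rw [SimpleGraph.ConnectedComponent.eq] at h
        obtain ⟨p⟩ := h
        induction p with
        | nil => rfl
        | cons hadj _ ih =>
          refine Eq.trans ?_ ih
          unfold graphOf at hadj
          rw [SimpleGraph.fromRel_adj] at hadj
          rcases hadj.2 with ⟨e, he, h1, h2⟩ | ⟨e, he, h1, h2⟩
          · rw [← h1, ← h2]; exact hF e he
          · rw [← h1, ← h2]; exact (hF e he).symm
    choose g hg using hs
    have hpart : ∀ w : W, part src dst F ((graphOf src dst F).connectedComponentMk (g w))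
        = Finset.univ.filter (fun v => r v ∈ ({w} : Finset W)) := by
      intro w
      ext v
      rw [mem_part, Finset.mem_filter, Finset.mem_singleton, ← hcls, hg]
      simp
    refine Nat.card_le_card_of_injective (fun w => (⟨(graphOf src dst F).connectedComponentMk
      (g w.1), ?_⟩ : {c : (graphOf src dst F).ConnectedComponent //
        Odd (boundary src dst (part src dst F c)).card})) ?_
    · rw [hpart, ← hpre]
      have h1 := w.2
      rw [Finset.mem_filter] at h1
      exact (odd_dg2 _ _ _).mp h1.2
    · intro w w' hww
      have h1 := congrArg Subtype.val hww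
      simp only at h1
      rw [← hcls, hg, hg] at h1
      exact Subtype.ext h1
  · intro Y
    have h1 := hb _ (hdis Y)
    rw [← hpre] at h1
    exact h1

/-- the reduction modulo five of a flow with values in `{0, 1, -1}` -/
theorem mod5 [Fintype V] [DecidableEq V] [Fintype E] [DecidableEq E] (src dst : E → V)
    (C : Finset E) (h : ∃ z : E → ℤ, IsFlow src dst z ∧ (∀ e, z e = 0 ∨ z e = 1 ∨ z e = -1) ∧
      ∀ e, z e ≠ 0 ↔ e ∈ C) :
    ∃ z : E → ZMod 5, (∀ v, Pool.Agent.TH676.Z.bd src dst z v = 0) ∧
      (∀ e, z e = 0 ∨ z e = 1 ∨ z e = -1) ∧ ∀ e, z e ≠ 0 ↔ e ∈ C := by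
  obtain ⟨z, h1, h2, h3⟩ := h
  refine ⟨fun e => ((z e : ℤ) : ZMod 5), fun v => ?_, fun e => ?_, fun e => ?_⟩
  · have h4 := h1 v
    rw [Finset.sum_filter, Finset.sum_filter, ← sub_eq_zero, ← Finset.sum_sub_distrib] at h4
    have h5 := congrArg (fun t : ℤ => (t : ZMod 5)) h4
    simp only [Int.cast_sum, Int.cast_sub, Int.cast_zero] at h5
    refine Eq.trans ?_ h5
    unfold Pool.Agent.TH676.Z.bd
    rw [Finset.sum_sub_distrib, Finset.sum_sub_distrib]
    congr 1 <;>
    · refine Finset.sum_congr rfl fun e _ => ?_
      split_ifs <;> simp
  · rcases h2 e with h | h | h <;> simp [h]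
  · rw [← h3 e]
    have h10 : (1 : ZMod 5) ≠ 0 := by decide
    rcases h2 e with h | h | h <;> simp [h, h10]

/-- **Theorem.** Let `G` be a finite multigraph (loops and parallel edges allowed), given by the
ends `src e`, `dst e` of each edge `e`.  Let `C 0, ..., C (m - 1)` be supports of flows with values
in `{0, 1, -1}`, each with at most eleven edges outside the union of the earlier ones, and let `F`
be their union.  Suppose that no edge cut of `G` which avoids `F` consists of exactly one edge, and
that at most `125` components of the graph with the edges `F` have an odd number of boundary edges.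
Then `G` has an integer flow with values in `{±1, ±2, ±3, ±4}`, and the characteristic polynomial
of the bond matroid of `G` is positive at all integers `q ≥ 5`. -/
theorem result :
    ∀ (V E : Type) [Fintype V] [DecidableEq V] [Fintype E] [DecidableEq E] (src dst : E → V)
      (m : ℕ) (C : Fin m → Finset E),
      (∀ i, ∃ z : E → ℤ, IsFlow src dst z ∧ (∀ e, z e = 0 ∨ z e = 1 ∨ z e = -1) ∧
        ∀ e, z e ≠ 0 ↔ e ∈ C i) →
      (∀ i, (C i \ (Finset.univ.filter (fun j => j < i)).biUnion C).card ≤ 11) →
      (∀ Y : Finset V, Disjoint (boundary src dst Y) (Finset.univ.biUnion C) →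
        (boundary src dst Y).card ≠ 1) →
      oddParts src dst (Finset.univ.biUnion C) ≤ 125 →
      (∃ f : E → ℤ, IsFlow src dst f ∧ ∀ e, 1 ≤ |f e| ∧ |f e| ≤ 4) ∧
      ∀ q : ℕ, 5 ≤ q → 0 < bondCharPoly src dst q := by
  intro V E _ _ _ _ src dst m C hC hnew hb ho
  have hfl := flowOn' m C (fun i => mod5 src dst (C i) (hC i)) hnew hb ho
  obtain ⟨F, hF, hF0⟩ := int_flow src dst (nzf src dst hfl)
  have hF1 := (isFlow_iff src dst F).mpr hF0
  exact ⟨⟨F, hF1, hF⟩, fun q hq => charPoly_pos src dst F hF1 hF q hq⟩

/-- Consequence (`m = 0`): at most `125` vertices of odd degree. -/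
theorem oddVertices :
    ∀ (V E : Type) [Fintype V] [DecidableEq V] [Fintype E] [DecidableEq E] (src dst : E → V),
      (Finset.univ.filter (fun v => Odd (degree src dst v))).card ≤ 125 →
      (∀ Y : Finset V, (boundary src dst Y).card ≠ 1) →
      ∃ f : E → ℤ, IsFlow src dst f ∧ ∀ e, 1 ≤ |f e| ∧ |f e| ≤ 4 := by
  intro V E _ _ _ _ src dst h hb
  obtain ⟨F, hF, hF0⟩ := int_flow src dst (nzf src dst (flowOn h hb))
  exact ⟨F, (isFlow_iff src dst F).mpr hF0, hF⟩

end Pool.Agent.Results.MP_c8786f_co.OddVertices
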