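import Mathlib
import Pool.Agent.TH497.PW.IntFlow
import Pool.Agent.TH362.FP.Pos
import Pool.Agent.Y335.FL.Main
import Pool.Agent.R890.FL.Comp

set_option autoImplicit false

/-!
# Graphs with small components after the deletion of at most 62 vertices (MP_c8786f_co)

Let `G` be a bridgeless multigraph and let `S` be a set of `k` vertices such that every component
of `G - S` has at most `l` edges, where `l ≤ 11` and `k (2 l + 3) < 63 (l + 3)`.  Then `G` has a
nowhere-zero 5-flow, and the characteristic polynomial of the bond matroid of `G` is positive at all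
integers `q ≥ 5`.  For `l = 0` the set `S` is a vertex cover: all bridgeless graphs with vertex cover
number at most 62 (in particular, with matching number at most 31) have nowhere-zero 5-flows; for
`l = 1, 2, 3, ...` one may delete `k ≤ 50, 44, 41, 40, 38, 37, 37, 36, 35, 35, 35` vertices.  The
bound for `l = 0` is the vertex cover number of Tutte's 12-cage minus one.  The degrees, the
connectivity and the order are arbitrary.  The condition on the components is stated with a
labelling `c` of the vertices which is constant on the components of `G - S` (its classes may be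
unions of components).

Proof.  The class of these graphs is closed under minors.  Let `G` be a minimal counterexample.  By
the library `Y335/FL` it has no circuit with at most eleven edges, and all its degrees are at least
three.

(1) So the components of `G - S` are trees.  Let `m` and `n` be the numbers of the edges and
vertices of `G - S` and let `q` be the number of the classes with edges; then `n ≥ m + q` and
`m ≤ l q`.

(2) Let `D` be the sum of the degrees of the vertices of `S`.  Then `3 n ≤ 2 m + D`, and so
`(l + 3) m ≤ l D`.

(3) If `s` in `S` has degree `d` then there are at least `62 d` edges at distance at most four from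
the neighbours of `s` which are not at `s`; hence `63 D ≤ k (m + D)`.  For
`k (2 l + 3) < 63 (l + 3)` these inequalities contradict each other.
-/

namespace Pool.Agent.Results.MP_c8786f_co.SmallComponents

open Pool.Agent.TH497.PW

variable {V E : Type}

/-- The edges with exactly one end in `Y`. -/
def boundary [DecidableEq V] [Fintype E] (src dst : E → V) (Y : Finset V) : Finset E :=
  Finset.univ.filter (fun e => ¬ (src e ∈ Y ↔ dst e ∈ Y))

/-- Kirchhoff's law. -/
def IsFlow [DecidableEq V] [Fintype E] (src dst : E → V) (f : E → ℤ) : Prop :=
  ∀ v : V, ∑ e ∈ Finset.univ.filter (fun e => src e = v), f e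
    = ∑ e ∈ Finset.univ.filter (fun e => dst e = v), f e

/-- The edges of `G - S` which are not loops. -/
def outside [DecidableEq V] [Fintype E] (src dst : E → V) (S : Finset V) : Finset E :=
  Finset.univ.filter (fun e => src e ≠ dst e ∧ src e ∉ S ∧ dst e ∉ S)

/-- The number of the components of the graph with the vertices `V` and the edges `A`. -/
noncomputable def components (src dst : E → V) (A : Finset E) : ℕ :=
  Nat.card (SimpleGraph.fromRel
    (fun u v : V => ∃ e ∈ A, src e = u ∧ dst e = v)).ConnectedComponent

/-- The rank of `A` in the cycle matroid of the graph. -/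
noncomputable def cycleRank [Fintype V] (src dst : E → V) (A : Finset E) : ℕ :=
  Fintype.card V - components src dst A

/-- The rank of `A` in the bond matroid of the graph (the dual of the cycle matroid). -/
noncomputable def bondRank [Fintype V] [Fintype E] [DecidableEq E] (src dst : E → V)
    (A : Finset E) : ℕ :=
  A.card + cycleRank src dst Aᶜ - cycleRank src dst Finset.univ

/-- The characteristic polynomial of the bond matroid at the integer `x`. -/
noncomputable def bondCharPoly [Fintype V] [Fintype E] [DecidableEq E] (src dst : E → V)
    (x : ℤ) : ℤ :=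
  ∑ A : Finset E, (-1) ^ A.card * x ^ (bondRank src dst Finset.univ - bondRank src dst A)

theorem isFlow_iff [DecidableEq V] [Fintype E] (src dst : E → V) (f : E → ℤ) :
    IsFlow src dst f ↔
      ∀ v, ∑ e, f e * ((if src e = v then 1 else 0) - (if dst e = v then 1 else 0)) = 0 := by
  unfold IsFlow
  refine forall_congr' fun v => ?_
  rw [Finset.sum_filter, Finset.sum_filter, ← sub_eq_zero, ← Finset.sum_sub_distrib]
  have : ∀ e, (if src e = v then f e else 0) - (if dst e = v then f e else 0)
      = f e * ((if src e = v then 1 else 0) - (if dst e = v then 1 else 0)) := by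
    intro e
    by_cases h1 : src e = v <;> by_cases h2 : dst e = v <;> simp [h1, h2]
  rw [Finset.sum_congr rfl (fun e _ => this e)]

theorem nzf [Fintype V] [DecidableEq V] [Fintype E] [DecidableEq E] (src dst : E → V)
    (h : Pool.Agent.TH676.Z.FlowOn src dst ∅ ∅) : NZF src dst := by
  obtain ⟨f, h1, _, h3⟩ := h
  refine ⟨f, fun e => h3 e (Finset.notMem_empty _) (Finset.notMem_empty _), fun x => ?_⟩
  rw [← h1 x]
  unfold Pool.Agent.TH676.Z.bd
  refine Finset.sum_congr rfl fun e _ => ?_
  unfold ic
  by_cases h4 : src e = x <;> by_cases h5 : dst e = x <;> simp [h4, h5]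

theorem charPoly_pos [Fintype V] [DecidableEq V] [Fintype E] [DecidableEq E] (src dst : E → V)
    (f : E → ℤ) (h1 : IsFlow src dst f) (h2 : ∀ e, 1 ≤ |f e| ∧ |f e| ≤ 4) (q : ℕ) (hq : 5 ≤ q) :
    0 < bondCharPoly src dst q :=
  Pool.Agent.TH362.FP.chr_pos src dst f h2 h1 q hq

theorem result :
    ∀ (V E : Type) [Fintype V] [DecidableEq V] [Fintype E] [DecidableEq E]
      (src dst : E → V) (S : Finset V) (l : ℕ) (c : V → ℕ),
      l ≤ 11 → S.card * (2 * l + 3) < 63 * (l + 3) →
      (∀ e ∈ outside src dst S, c (src e) = c (dst e)) →
      (∀ j, ((outside src dst S).filter (fun e => c (src e) = j)).card ≤ l) →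
      (∀ Y : Finset V, (boundary src dst Y).card ≠ 1) →
      (∃ f : E → ℤ, IsFlow src dst f ∧ ∀ e, 1 ≤ |f e| ∧ |f e| ≤ 4) ∧
      ∀ q : ℕ, 5 ≤ q → 0 < bondCharPoly src dst q := by
  intro V E _ _ _ _ src dst S l c hl hk h1 h2 hb
  have hfl := Pool.Agent.R890.FL.comp Pool.Agent.Y335.FL.girth_all Pool.Agent.Y335.FL.even_all
    Pool.Agent.Y335.FL.edge62_all V E src dst S.card l hl hk ⟨S, le_rfl, c, h1, h2⟩
    (fun Y _ => by rw [Finset.sdiff_empty]; exact hb Y)
  obtain ⟨F, hF, hF0⟩ := int_flow src dst (nzf src dst hfl)
  have hF1 := (isFlow_iff src dst F).mpr hF0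
  exact ⟨⟨F, hF1, hF⟩, fun q hq => charPoly_pos src dst F hF1 hF q hq⟩

end Pool.Agent.Results.MP_c8786f_co.SmallComponents
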