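import Mathlib
import Pool.Agent.TH497.PW.IntFlow
import Pool.Agent.TH362.FP.Pos
import Pool.Agent.Y335.FL.Main
import Pool.Agent.R15.CDegFlow

set_option autoImplicit false

/-!
# Nowhere-zero 5-flows in graphs whose dense minors have a vertex of degree at most five
(MP_c8786f_co)

Let `G` be a bridgeless multigraph such that every simple minor `H` of `G` with
`|E(H)| ≥ |V(H)| + 63` has a vertex of degree at most five.  Then `G` has a nowhere-zero 5-flow, and
the characteristic polynomial of the bond matroid of `G` is positive at all integers `q ≥ 5`.  In
particular this holds if every simple minor has a vertex of degree at most five (for example if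
every simple minor has less than three times as many edges as vertices), or if this is true of the
minors with at least 13 vertices.

Proof.  The class of these graphs is closed under minors.  Let `G` be a minimal counterexample.  By
the starting results `G` has no circuit with at most eleven edges, all vertices have at least three
neighbours and `G` has at least 126 vertices (apart from isolated vertices).  Let `C` be a maximal
set of vertices with pairwise disjoint closed neighbourhoods.  Every vertex is at distance at most
two from `C`; it is assigned to the vertex of `C` whose closed neighbourhood contains it, or else to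
some vertex of `C` at distance two.  The sets `B` of vertices assigned to the same vertex are
connected and induce trees, because there are no short circuits; hence at least
`3 |B| - 2 (|B| - 1) = |B| + 2 ≥ 6` edges leave `B`, and they lead to different sets, again because
there are no circuits with at most ten edges.  So contracting the sets gives a simple minor with `k`
vertices, minimum degree at least six and at least `(126 + 2 k) / 2 = k + 63` edges.
-/

namespace Pool.Agent.Results.MP_c8786f_co.SmallDegreeMinors

open Pool.Agent.TH497.PW

variable {V E : Type}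

/-- The edges with exactly one end in `X`. -/
def boundary [DecidableEq V] [Fintype E] (src dst : E → V) (X : Finset V) : Finset E :=
  Finset.univ.filter (fun e => ¬ (src e ∈ X ↔ dst e ∈ X))

/-- Kirchhoff's law. -/
def IsFlow [DecidableEq V] [Fintype E] (src dst : E → V) (f : E → ℤ) : Prop :=
  ∀ v : V, ∑ e ∈ Finset.univ.filter (fun e => src e = v), f e
    = ∑ e ∈ Finset.univ.filter (fun e => dst e = v), f e

/-- Some edge has one end in `A` and the other end in `B`. -/
def Joined (src dst : E → V) (A B : Finset V) : Prop :=
  ∃ e, (src e ∈ A ∧ dst e ∈ B) ∨ (src e ∈ B ∧ dst e ∈ A)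

/-- `A` is not empty and induces a connected subgraph: for every division of `A` into two nonempty
sets some edge has one end in each. -/
def Connected [DecidableEq V] (src dst : E → V) (A : Finset V) : Prop :=
  A.Nonempty ∧ ∀ X ⊆ A, X.Nonempty → X ≠ A → Joined src dst X (A \ X)

/-- The simple graph obtained from the disjoint sets `B 0, ..., B (k - 1)` by contracting each of
them to one vertex (and deleting the other vertices, the loops and the parallel edges). -/
def minorGraph (src dst : E → V) {k : ℕ} (B : Fin k → Finset V) : SimpleGraph (Fin k) where
  Adj i j := i ≠ j ∧ Joined src dst (B i) (B j)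
  symm := ⟨fun _ _ h => ⟨h.1.symm, by
    obtain ⟨e, he | he⟩ := h.2
    · exact ⟨e, Or.inr he⟩
    · exact ⟨e, Or.inl he⟩⟩⟩
  loopless := ⟨fun _ h => h.1 rfl⟩

/-- The number of the components of the graph with the vertices `V` and the edges `A`. -/
noncomputable def components (src dst : E → V) (A : Finset E) : ℕ :=
  Nat.card (SimpleGraph.fromRel
    (fun u v : V => ∃ e ∈ A, src e = u ∧ dst e = v)).ConnectedComponent

/-- The rank of `A` in the cycle matroid of the graph. -/
noncomputable def cycleRank [Fintype V] (src dst : E → V) (A : Finset E) : ℕ :=
  Fintype.card V - components src dst A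

/-- The rank of `A` in the bond matroid of the graph (the dual of the cycle matroid). -/
noncomputable def bondRank [Fintype V] [Fintype E] [DecidableEq E] (src dst : E → V)
    (A : Finset E) : ℕ :=
  A.card + cycleRank src dst Aᶜ - cycleRank src dst Finset.univ

/-- The characteristic polynomial of the bond matroid at the integer `x`. -/
noncomputable def bondCharPoly [Fintype V] [Fintype E] [DecidableEq E] (src dst : E → V)
    (x : ℤ) : ℤ :=
  ∑ A : Finset E, (-1) ^ A.card * x ^ (bondRank src dst Finset.univ - bondRank src dst A)

theorem isFlow_iff [DecidableEq V] [Fintype E] (src dst : E → V) (f : E → ℤ) :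
    IsFlow src dst f ↔
      ∀ v, ∑ e, f e * ((if src e = v then 1 else 0) - (if dst e = v then 1 else 0)) = 0 := by
  unfold IsFlow
  refine forall_congr' fun v => ?_
  rw [Finset.sum_filter, Finset.sum_filter, ← sub_eq_zero, ← Finset.sum_sub_distrib]
  have : ∀ e, (if src e = v then f e else 0) - (if dst e = v then f e else 0)
      = f e * ((if src e = v then 1 else 0) - (if dst e = v then 1 else 0)) := by
    intro e
    by_cases h1 : src e = v <;> by_cases h2 : dst e = v <;> simp [h1, h2]
  rw [Finset.sum_congr rfl (fun e _ => this e)]

theorem nzf [Fintype V] [DecidableEq V] [Fintype E] [DecidableEq E] (src dst : E → V)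
    (h : Pool.Agent.TH676.Z.FlowOn src dst ∅ ∅) : NZF src dst := by
  obtain ⟨f, h1, _, h3⟩ := h
  refine ⟨f, fun e => h3 e (Finset.notMem_empty _) (Finset.notMem_empty _), fun x => ?_⟩
  rw [← h1 x]
  unfold Pool.Agent.TH676.Z.bd
  refine Finset.sum_congr rfl fun e _ => ?_
  unfold ic
  by_cases h4 : src e = x <;> by_cases h5 : dst e = x <;> simp [h4, h5]

theorem charPoly_pos [Fintype V] [DecidableEq V] [Fintype E] [DecidableEq E] (src dst : E → V)
    (f : E → ℤ) (h1 : IsFlow src dst f) (h2 : ∀ e, 1 ≤ |f e| ∧ |f e| ≤ 4) (q : ℕ) (hq : 5 ≤ q) :
    0 < bondCharPoly src dst q :=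
  Pool.Agent.TH362.FP.chr_pos src dst f h2 h1 q hq

theorem result :
    ∀ (V E : Type) [Fintype V] [DecidableEq V] [Fintype E] [DecidableEq E] (src dst : E → V),
      (∀ (k : ℕ) (B : Fin k → Finset V), (∀ i j, i ≠ j → Disjoint (B i) (B j)) →
        (∀ i, Connected src dst (B i)) → k + 63 ≤ (minorGraph src dst B).edgeSet.ncard →
        ∃ i, ((minorGraph src dst B).neighborSet i).ncard ≤ 5) →
      (∀ Y : Finset V, (boundary src dst Y).card ≠ 1) →
      (∃ f : E → ℤ, IsFlow src dst f ∧ ∀ e, 1 ≤ |f e| ∧ |f e| ≤ 4) ∧
      ∀ q : ℕ, 5 ≤ q → 0 < bondCharPoly src dst q := by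
  intro V E _ _ _ _ src dst hX hb
  have hs : Pool.Agent.R15.CDeg.Small src dst := hX
  have hfl := Pool.Agent.R15.CDeg.flow_small Pool.Agent.Y335.FL.girth_all hs
    (fun Y _ => by rw [Finset.sdiff_empty]; exact hb Y)
  obtain ⟨F, hF, hF0⟩ := int_flow src dst (nzf src dst hfl)
  have hF1 := (isFlow_iff src dst F).mpr hF0
  exact ⟨⟨F, hF1, hF⟩, fun q hq => charPoly_pos src dst F hF1 hF q hq⟩

end Pool.Agent.Results.MP_c8786f_co.SmallDegreeMinors
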